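import Pool.Agent.Helper90.MZ.StmtsZ

/-! Module ZQA: `M1` is atomic over the base with the bases of the types in the list added. -/

set_option autoImplicit false

namespace Pool.Agent.Helper90.MZ

open Pool.Agent.Helper90.TS

variable {V G : Type} [Group G] [MulAction G V] {X : Ctx V G}

/-- the union of the ranges -/
def zqaU {κ' : Type} (b : κ' → Fin 1 → V) (J : Set κ') : Set V := ⋃ s ∈ J, Set.range (b s)

theorem zqa_U_empty {κ' : Type} (b : κ' → Fin 1 → V) : zqaU b ∅ = ∅ := Set.biUnion_empty _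

theorem zqa_U_insert {κ' : Type} (b : κ' → Fin 1 → V) (s : κ') (J : Set κ') :
    zqaU b (insert s J) = Set.range (b s) ∪ zqaU b J := Set.biUnion_insert _ _ _

theorem zqa_U_mono {κ' : Type} (b : κ' → Fin 1 → V) {I J : Set κ'} (h : I ⊆ J) :
    zqaU b I ⊆ zqaU b J := Set.biUnion_subset_biUnion_left h

theorem zqa_U_cnt {κ' : Type} [Countable κ'] (b : κ' → Fin 1 → V) (J : Set κ') :
    (zqaU b J).Countable := J.to_countable.biUnion fun s _ => Set.countable_range _

theorem zqa_star (hBAS : ST_BAS) (hRLB : ST_RLB) (hIND : ST_IND) {S' M1 : Set V} {κ' : Type}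
    [Countable κ'] {q : κ' → Ty V} {F : κ' → Set V} {b : κ' → Fin 1 → V} (hM1 : Mdl X M1)
    (hS' : S' ⊆ M1)
    (hq : ∀ k, SR X (q k) ∧ (q k).A ⊆ F k ∧ F k ⊆ S' ∧ Om X (q k) (F k) M1 ∧
      Rl X (q k) M1 (b k))
    (hNO : ∀ j k, q j = q k ∨ ¬ NO X (q j) (q k))
    (hInd : Ind X M1 (fun k => Set.range (b k))) (k : κ') (J : Set κ') (hJ : J.Finite)
    (hk : k ∉ J) (y : Fin 1 → V) (hy : Eqv G (S' ∪ zqaU b J) (b k) y) :
    Eqv G (M1 ∪ zqaU b J) (b k) y := by
  obtain ⟨hSR, hA, hFS, hOm, hRl⟩ := hq k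
  have cM : M1.Countable := hM1.1
  have cS : S'.Countable := cM.mono hS'
  have cU : ∀ J, (zqaU b J).Countable := zqa_U_cnt b
  have cr : ∀ z : Fin 1 → V, (Set.range z).Countable := fun z => Set.countable_range z
  have hFM : F k ⊆ M1 := hFS.trans hS'
  have hAM : (q k).A ⊆ M1 := hA.trans hFM
  have cF : (F k).Countable := cM.mono hFM
  have hI : ∀ I J : Set κ', Disjoint I J → SI X M1 (zqaU b I) (zqaU b J) := hInd
  have hI1 : ∀ (s : κ') (J : Set κ'), s ∉ J → SI X M1 (Set.range (b s)) (zqaU b J) := by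
    intro s J hs
    have h1 := hI {s} J (Set.disjoint_singleton_left.mpr hs)
    have e : zqaU b {s} = Set.range (b s) := Set.biUnion_singleton _ _
    rwa [e] at h1
  have rlM : ∀ (s : κ') (J : Set κ'), s ∉ J → Rl X (q s) (M1 ∪ zqaU b J) (b s) := by
    intro s J hs
    obtain ⟨hSR', hA', hFS', _, hRl'⟩ := hq s
    have e : (q s).A ∪ M1 = M1 :=
      Set.union_eq_self_of_subset_left ((hA'.trans hFS').trans hS')
    exact (hRLB V G X (q s) hSR' M1 cM).2.2.2.1 (b s) (zqaU b J) (cU J) hRl'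
      (by rw [e]; exact hI1 s J hs)
  have eAF : (q k).A ∪ F k = F k := Set.union_eq_self_of_subset_left hA
  -- A
  have hyC : Rl X (q k) (S' ∪ zqaU b J) y := by
    have h1 : Rl X (q k) (S' ∪ zqaU b J) (b k) :=
      (hRLB V G X (q k) hSR (M1 ∪ zqaU b J) (cM.union (cU J))).2.2.1 (b k) (rlM k J hk) _
        ((Set.union_subset_union_left _ hS').trans Set.subset_union_right)
    have e : (q k).A ∪ (S' ∪ zqaU b J) = S' ∪ zqaU b J :=
      Set.union_eq_self_of_subset_left ((hA.trans hFS).trans Set.subset_union_left)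
    exact (hRLB V G X (q k) hSR (S' ∪ zqaU b J) (cS.union (cU J))).2.2.2.2.2.1 (b k) y h1
      (by rw [e]; exact hy)
  -- B
  have hB : ∀ T : Set κ', T.Finite → (∀ s ∈ T, q s = q k) → SI X (F k) (zqaU b T) M1 := by
    intro T hT
    refine Set.Finite.induction_on
      (motive := fun T _ => (∀ s ∈ T, q s = q k) → SI X (F k) (zqaU b T) M1) T hT ?_ ?_
    · intro _
      rw [zqa_U_empty]
      exact si_empty_left
    · intro s T hs _ ih hall
      rw [zqa_U_insert, Set.union_comm]
      refine si_transl cF (cU T) cM (cr _) (ih fun s' hs' => hall s' (Set.mem_insert_of_mem _ hs'))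
        ?_
      have e0 := rlM s T hs
      rw [hall s (Set.mem_insert _ _)] at e0
      have e1 : F k ∪ (M1 ∪ zqaU b T) = M1 ∪ zqaU b T :=
        Set.union_eq_self_of_subset_left (hFM.trans Set.subset_union_left)
      have e2 : SI X ((q k).A ∪ F k) (Set.range (b s)) (M1 ∪ zqaU b T) :=
        (hRLB V G X (q k) hSR (F k) cF).2.2.2.2.1 (b s) _ (cM.union (cU T)) (by rw [e1]; exact e0)
      rw [eAF] at e2
      have e3 : SI X (F k ∪ zqaU b T) (Set.range (b s)) (M1 ∪ zqaU b T) :=
        si_up cF (cr _) (cM.union (cU T)) e2 Set.subset_union_left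
          (Set.union_subset_union_right _ Set.subset_union_right)
      exact si_right (cF.union (cU T)) (cr _) (cM.union (cU T)) Set.subset_union_left e3
  -- the two parts
  obtain ⟨J1, hJ1⟩ : ∃ J1 : Set κ', J1 = {s | s ∈ J ∧ q s = q k} := ⟨_, rfl⟩
  obtain ⟨J2, hJ2⟩ : ∃ J2 : Set κ', J2 = {s | s ∈ J ∧ q s ≠ q k} := ⟨_, rfl⟩
  have hJ1J : J1 ⊆ J := by rw [hJ1]; exact fun s hs => hs.1
  have hJ2J : J2 ⊆ J := by rw [hJ2]; exact fun s hs => hs.1
  have hJ12 : J1 ∪ J2 = J := by
    rw [hJ1, hJ2]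
    ext s
    constructor
    · rintro (h | h)
      · exact h.1
      · exact h.1
    · intro h
      by_cases h' : q s = q k
      · exact Or.inl ⟨h, h'⟩
      · exact Or.inr ⟨h, h'⟩
  have hJ1q : ∀ s ∈ J1, q s = q k := by rw [hJ1]; exact fun s hs => hs.2
  have hJ2q : ∀ s ∈ J2, q s ≠ q k := by rw [hJ2]; exact fun s hs => hs.2
  have hJ1f : J1.Finite := hJ.subset hJ1J
  have hJ2f : J2.Finite := hJ.subset hJ2J
  have hB1 := hB J1 hJ1f hJ1q
  -- y is independent of the b_s
  have hyF : SI X (F k) (Set.range y) (S' ∪ zqaU b J) := by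
    have e1 : F k ∪ (S' ∪ zqaU b J) = S' ∪ zqaU b J :=
      Set.union_eq_self_of_subset_left (hFS.trans Set.subset_union_left)
    have := (hRLB V G X (q k) hSR (F k) cF).2.2.2.2.1 y _ (cS.union (cU J))
      (by rw [e1]; exact hyC)
    rwa [eAF] at this
  have hyJ1 : SI X (F k) (Set.range y) (zqaU b J1) :=
    si_right cF (cr _) (cS.union (cU J)) ((zqa_U_mono b hJ1J).trans Set.subset_union_right) hyF
  -- C
  have hC : Ind X (F k) (fun s : J1 => Set.range (b s)) := by
    have h3 := (hIND V G X M1 cM).2.2.1 κ' J1 (fun k => Set.range (b k)) (fun s => (s : κ'))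
      Subtype.val_injective hInd
    intro I' J' hd
    have h4 := h3 I' J' hd
    have hsub : (⋃ i ∈ I', (fun s : J1 => Set.range (b s)) i) ⊆ zqaU b J1 := by
      intro v hv
      obtain ⟨i, hi⟩ := Set.mem_iUnion.mp hv
      obtain ⟨_, hi2⟩ := Set.mem_iUnion.mp hi
      exact Set.mem_biUnion i.2 hi2
    have hsub' : (⋃ i ∈ J', (fun s : J1 => Set.range (b s)) i) ⊆ zqaU b J1 := by
      intro v hv
      obtain ⟨i, hi⟩ := Set.mem_iUnion.mp hv
      obtain ⟨_, hi2⟩ := Set.mem_iUnion.mp hi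
      exact Set.mem_biUnion i.2 hi2
    have c1 := (cU J1).mono hsub
    have c2 := (cU J1).mono hsub'
    exact si_right cF c1 (cM.union c2) Set.subset_union_right
      (si_trans' c1 cM c2 hFM (si_left hsub hB1) h4)
  -- D
  have hD0 : Ind X (F k) (fun _ : Unit => Set.range y) := by
    intro I' J' hd
    by_cases h : () ∈ I'
    · have : J' = ∅ := by
        ext u
        constructor
        · intro hu
          exact (Set.disjoint_left.mp hd h (by cases u; exact hu)).elim
        · intro hu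
          exact hu.elim
      rw [this, Set.biUnion_empty]
      exact si_empty_right
    · have : I' = ∅ := by
        ext u
        constructor
        · intro hu
          exact (h (by cases u; exact hu)).elim
        · intro hu
          exact hu.elim
      rw [this, Set.biUnion_empty]
      exact si_empty_left
  have hU1 : (⋃ s : J1, Set.range (b s)) = zqaU b J1 := by
    unfold zqaU
    rw [Set.biUnion_eq_iUnion]
  have hD1 : Ind X (F k) (Sum.elim (fun s : J1 => Set.range (b s)) (fun _ : Unit => Set.range y)) := by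
    refine (hIND V G X (F k) cF).2.2.2.2.2.2.2.1 J1 Unit _ _ (fun s => cr _) (fun _ => cr _) hC hD0 ?_
    rw [hU1, Set.iUnion_const]
    exact si_symm cF (cr _) (cU J1) hyJ1
  -- E
  have hE : SI X (F k) (zqaU b J1 ∪ Set.range y) M1 := by
    have h5 := hBAS V G X (q k) (F k) M1 (J1 ⊕ Unit)
      (Sum.elim (fun s : J1 => b s) (fun _ : Unit => y)) hSR hM1 hAM hFM hOm
      (by
        rintro (s | u)
        · show Rl X (q k) (F k) (b s)
          have e0 := rlM s ∅ (Set.notMem_empty _)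
          rw [hJ1q s s.2, zqa_U_empty, Set.union_empty] at e0
          exact (hRLB V G X (q k) hSR M1 cM).2.2.1 (b s) e0 _ (hFM.trans Set.subset_union_right)
        · show Rl X (q k) (F k) y
          exact (hRLB V G X (q k) hSR _ (cS.union (cU J))).2.2.1 y hyC _
            ((hFS.trans Set.subset_union_left).trans Set.subset_union_right))
      (by
        rw [eAF]
        have e : (fun i => Set.range ((Sum.elim (fun s : J1 => b s) (fun _ : Unit => y)) i)) =
            Sum.elim (fun s : J1 => Set.range (b s)) (fun _ : Unit => Set.range y) := by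
          funext i
          rcases i with i | i
          · rfl
          · rfl
        rw [e]
        exact hD1)
    rw [eAF] at h5
    refine si_left ?_ h5
    refine Set.union_subset ?_ ?_
    · rw [← hU1]
      exact Set.iUnion_subset fun s => Set.subset_iUnion
        (fun i => Set.range ((Sum.elim (fun s : J1 => b s) (fun _ : Unit => y)) i)) (Sum.inl s)
    · exact Set.subset_iUnion
        (fun i => Set.range ((Sum.elim (fun s : J1 => b s) (fun _ : Unit => y)) i)) (Sum.inr ())
  have hE2 : Rl X (q k) (M1 ∪ zqaU b (J1 ∪ ∅)) y := by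
    have h6 := ((si_unionl cF (cU J1) cM (cr y)).1 hE).2
    have h7 : SI X (F k) (Set.range y) (zqaU b J1 ∪ M1) := si_trans cF (cr y) (cU J1) cM hyJ1 h6
    have h8 : Rl X (q k) (F k) y := (hRLB V G X (q k) hSR _ (cS.union (cU J))).2.2.1 y hyC _
            ((hFS.trans Set.subset_union_left).trans Set.subset_union_right)
    have h9 := (hRLB V G X (q k) hSR (F k) cF).2.2.2.1 y (zqaU b J1 ∪ M1) ((cU J1).union cM) h8
      (by rw [eAF]; exact h7)
    have e : F k ∪ (zqaU b J1 ∪ M1) = M1 ∪ zqaU b (J1 ∪ ∅) := by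
      rw [Set.union_empty, Set.union_comm (zqaU b J1) M1]
      exact Set.union_eq_self_of_subset_left (hFM.trans Set.subset_union_left)
    rwa [e] at h9
  -- F
  have hF2 : ∀ T : Set κ', T.Finite → T ⊆ J2 → Rl X (q k) (M1 ∪ zqaU b (J1 ∪ T)) y := by
    intro T hT
    refine Set.Finite.induction_on
      (motive := fun T _ => T ⊆ J2 → Rl X (q k) (M1 ∪ zqaU b (J1 ∪ T)) y) T hT ?_ ?_
    · intro _
      exact hE2
    · intro s T hs _ ih hall
      have h1 := ih fun s' hs' => hall (Set.mem_insert_of_mem _ hs')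
      have hsJ2 : s ∈ J2 := hall (Set.mem_insert _ _)
      have hs1 : s ∉ J1 ∪ T := by
        rintro (h | h)
        · exact hJ2q s hsJ2 (hJ1q s h)
        · exact hs h
      have cB : (M1 ∪ zqaU b (J1 ∪ T)).Countable := cM.union (cU _)
      have hsi : SI X (M1 ∪ zqaU b (J1 ∪ T)) (Set.range y) (Set.range (b s)) := by
        by_contra hcon
        rcases hNO k s with h | h
        · exact hJ2q s hsJ2 h.symm
        · exact h ⟨M1 ∪ zqaU b (J1 ∪ T), y, b s, cB, hAM.trans Set.subset_union_left,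
            (((hq s).2.1.trans (hq s).2.2.1).trans hS').trans Set.subset_union_left, h1,
            rlM s _ hs1, hcon⟩
      have e : (q k).A ∪ (M1 ∪ zqaU b (J1 ∪ T)) = M1 ∪ zqaU b (J1 ∪ T) :=
        Set.union_eq_self_of_subset_left (hAM.trans Set.subset_union_left)
      have h2 := (hRLB V G X (q k) hSR _ cB).2.2.2.1 y (Set.range (b s)) (cr _) h1
        (by rw [e]; exact hsi)
      have e2 : M1 ∪ zqaU b (J1 ∪ insert s T) = M1 ∪ zqaU b (J1 ∪ T) ∪ Set.range (b s) := by
        rw [Set.union_insert, zqa_U_insert, Set.union_assoc, Set.union_comm (Set.range (b s))]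
      rw [e2]
      exact h2
  -- G
  have hG := hF2 J2 hJ2f le_rfl
  rw [hJ12] at hG
  have h10 := (hRLB V G X (q k) hSR _ (cM.union (cU J))).2.1 (b k) y (rlM k J hk) hG
  exact eqv_mono Set.subset_union_right h10

theorem st_ZQA (h1 : ST_BAS) (h2 : ST_ATMB) (_h3 : ST_ISLB) (h4 : ST_RLB) (h5 : ST_IND) :
    ST_ZQA := by
  intro V G _ _ X S M1 F0 κ' _ q F b N hat hF0 hF0f hq hNO hF hInd hN
  have hat' : Atm X (S ∪ F0) M1 := (h2 V G X S M1).1 hat F0 hF0 hF0f
  have hM1 : Mdl X M1 := hat'.1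
  have cM : M1.Countable := hM1.1
  have hS' : S ∪ F0 ⊆ M1 := hat'.2.1
  have cS : (S ∪ F0).Countable := cM.mono hS'
  have cU : ∀ J, (zqaU b J).Countable := zqa_U_cnt b
  have hUn : (⋃ k, Set.range (b k)) = zqaU b Set.univ := by
    unfold zqaU
    rw [Set.biUnion_univ]
  refine (h2 V G X (S ∪ F0) M1).2.2.2.2.1 _ N hN hS' ?_
  intro n m hm
  obtain ⟨D, hD, hmD, hDx⟩ := hat'.2.2 n m hm
  refine ⟨D, ov_mono X Set.subset_union_left hD, hmD, ?_⟩
  intro x hx
  -- finite sets of indices
  have hfin : ∀ J : Set κ', J.Finite → Eqv G (S ∪ F0 ∪ zqaU b J) m x := by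
    intro J hJ
    refine Set.Finite.induction_on
      (motive := fun J _ => Eqv G (S ∪ F0 ∪ zqaU b J) m x) J hJ ?_ ?_
    · rw [zqa_U_empty, Set.union_empty]
      exact hDx x hx
    · intro k T hk hTf ih
      obtain ⟨g, hg, hgm⟩ := ih
      have hstar := zqa_star (X := X) h1 h4 h5 (S' := S ∪ F0) (F := F) hM1 hS'
        (fun k => ⟨(hq k).1, (hq k).2.1, (hq k).2.2.2.1, (hq k).2.2.2.2.1, (hq k).2.2.2.2.2⟩)
        hNO hInd k T hTf hk (g⁻¹ • b k) ⟨g⁻¹, inv_mem hg, rfl⟩
      obtain ⟨h0, hh0, hh0b⟩ := hstar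
      have hh1 : h0 ∈ Fx G M1 := (fx_union.1 hh0).1
      have hh2 : h0 ∈ Fx G (zqaU b T) := (fx_union.1 hh0).2
      have hm0 : h0 • m = m := by
        have := fx_anti hm hh1
        exact fx_range.1 this
      refine ⟨g * h0, ?_, ?_⟩
      · rw [zqa_U_insert]
        refine fx_union.2 ⟨?_, fx_union.2 ⟨?_, ?_⟩⟩
        · exact mul_mem (fx_union.1 hg).1 (fx_anti hS' hh1)
        · refine fx_range.2 ?_
          rw [mul_smul, hh0b, smul_inv_smul]
        · exact mul_mem (fx_union.1 hg).2 hh2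
      · rw [mul_smul, hm0, hgm]
  -- finite character
  refine st_TYPE V G X (S ∪ F0 ∪ ⋃ k, Set.range (b k)) ?_ (Fin n) m x ?_
  · rw [hUn]
    exact cS.union (cU _)
  · intro D' hD' hmD'
    have cA : (S ∪ F0 ∪ ⋃ k, Set.range (b k)).Countable := by
      rw [hUn]
      exact cS.union (cU _)
    obtain ⟨r, a, E, ha, hE, hDE⟩ := st_FSUP V G X _ cA (Fin n) D' hD'
    have hch : ∀ i, ∃ J : Set κ', J.Finite ∧ a i ∈ S ∪ F0 ∪ zqaU b J := by
      intro i
      rcases ha ⟨i, rfl⟩ with h | h
      · exact ⟨∅, Set.finite_empty, Or.inl h⟩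
      · obtain ⟨k, hk⟩ := Set.mem_iUnion.mp h
        exact ⟨{k}, Set.finite_singleton k, Or.inr (Set.mem_biUnion (Set.mem_singleton k) hk)⟩
    choose Jf hJf1 hJf2 using hch
    have hJfin : (⋃ i, Jf i).Finite := Set.finite_iUnion hJf1
    obtain ⟨g, hg, hgm⟩ := hfin _ hJfin
    rw [hDE] at hmD' ⊢
    have hga : g • a = a := by
      funext i
      refine hg (a i) ?_
      exact Set.union_subset_union_right _ (zqa_U_mono b (Set.subset_iUnion Jf i)) (hJf2 i)
    have h6 := hE.2 g (by rw [fx_empty]; exact Subgroup.mem_top _) _ hmD'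
    rw [smul_elim, hga, hgm] at h6
    exact h6

end Pool.Agent.Helper90.MZ
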